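import Mathlib
import Pool.Agent.Helper954.InitSum
import Pool.Agent.Y731.DS.Moments

/-!
# Initial divisor sums: `f (N) > ψ (N) N` for almost all `N`, for every `ψ → 0`

All moments of `N / f (N)` are bounded on average.  Hence the number of `N ≤ x` with `f (N) ≤ ε N`
is at most `C_K ε ^ K x` for every `K`, and the answer to the question of Erdős and Graham is
negative in the strongest possible way: for every function `ψ` tending to zero one has
`f (N) > ψ (N) N` for almost all `N`.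
-/

set_option autoImplicit false

open Finset Filter Topology

namespace Pool.Agent.Results.MP_d49c4f_nt.BoundedMoments

/-- `D n` is the set of nonempty initial sums of the increasing sequence of the divisors of `n`
that exceed `1`: for each divisor `d > 1` of `n`, the sum of all divisors `e` of `n` with
`1 < e ≤ d`.  In particular `D 0 = D 1 = ∅`. -/
def D (n : ℕ) : Set ℕ :=
  {N | ∃ d ∈ n.divisors, 1 < d ∧ N = ∑ e ∈ n.divisors with 1 < e ∧ e ≤ d, e}

/-- `N` is representable if it lies in `D n` for some `n`. -/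
def Representable (N : ℕ) : Prop := ∃ n, N ∈ D n

/-- The least `n` with `N ∈ D n` for representable `N`; for the other (finitely many) `N` this is
`0`, and in the real numbers `N / 0 = 0`. -/
noncomputable def f (N : ℕ) : ℕ := sInf {n | N ∈ D n}

/-- The number of elements of `E` in `{1, …, x}`. -/
noncomputable def count (E : Set ℕ) (x : ℕ) : ℕ := (E ∩ Set.Icc 1 x).ncard

/-- The set `E` of natural numbers has natural density `δ`. -/
def HasDensity (E : Set ℕ) (δ : ℝ) : Prop :=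
  Tendsto (fun x : ℕ => (count E x : ℝ) / x) atTop (𝓝 δ)

/-- all sufficiently large `N` are representable -/
theorem large_representable : ∃ N₀, ∀ N ≥ N₀, Representable N := by
  obtain ⟨N₀, h⟩ := Pool.Agent.Helper954.InitSum.large_init
  refine ⟨N₀, fun N hN => ?_⟩
  obtain ⟨m, d, hd, hd1, hs⟩ := h (N + 1) (by omega)
  refine ⟨m, d, hd, hd1, ?_⟩
  have := Pool.Agent.Helper954.InitSum.sum_gt_one m d hd
  omega

theorem pos_of_mem {n N : ℕ} (h : N ∈ D n) : 0 < n ∧ 0 < N := by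
  obtain ⟨d, hd, hd1, rfl⟩ := h
  refine ⟨Nat.pos_of_ne_zero (Nat.mem_divisors.1 hd).2, ?_⟩
  have h1 : d ≤ ∑ e ∈ n.divisors with 1 < e ∧ e ≤ d, e :=
    Finset.single_le_sum (f := fun e => e) (fun _ _ => Nat.zero_le _)
      (Finset.mem_filter.2 ⟨hd, hd1, le_rfl⟩)
  omega

theorem f_mem {N : ℕ} (h : Representable N) : N ∈ D (f N) := Nat.sInf_mem (s := {n | N ∈ D n}) h

theorem f_pos {N : ℕ} (h : Representable N) : 0 < f N := (pos_of_mem (f_mem h)).1

theorem f_zero {N : ℕ} (h : ¬ Representable N) : f N = 0 := by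
  have : {n | N ∈ D n} = ∅ := by
    ext n
    simp only [Set.mem_ofPred_eq, Set.mem_empty_iff_false, iff_false]
    exact fun hn => h ⟨n, hn⟩
  rw [f, this, Nat.sInf_empty]

/-- moments over the representable numbers -/
theorem moments_rep (K : ℕ) : ∃ C : ℝ, 0 ≤ C ∧ ∀ (x : ℕ) (S : Finset ℕ),
    (∀ N ∈ S, N ≤ x ∧ Representable N) → ∑ N ∈ S, ((N : ℝ) / f N) ^ K ≤ C * x := by
  classical
  obtain ⟨C, hC0, hC⟩ := Pool.Agent.Y731.DS.main_moment K
  refine ⟨C, hC0, fun x S hS => ?_⟩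
  have hmem : ∀ N ∈ S, ∃ d ∈ (f N).divisors, 1 < d ∧
      N = ∑ e ∈ (f N).divisors with 1 < e ∧ e ≤ d, e := fun N hN => f_mem (hS N hN).2
  choose! d hd hd1 hsum using hmem
  refine hC (fun m d => ∑ e ∈ m.divisors with 1 < e ∧ e ≤ d, e) (fun m d => ?_) x S f d
    (fun N hN => ⟨(pos_of_mem (f_mem (hS N hN).2)).2, (hS N hN).1, hd N hN, hsum N hN⟩)
  apply Finset.sum_le_sum_of_subset
  intro e he
  simp only [mem_filter] at he ⊢
  exact ⟨he.1, he.2.2⟩

theorem moments (K : ℕ) : ∃ C : ℝ, 0 ≤ C ∧ ∀ x : ℕ,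
    ∑ N ∈ Finset.Icc 1 x, ((N : ℝ) / f N) ^ K ≤ C * x := by
  classical
  obtain ⟨C, hC0, hC⟩ := moments_rep K
  refine ⟨C + 1, by positivity, fun x => ?_⟩
  have h1 : ∑ N ∈ Finset.Icc 1 x, ((N : ℝ) / f N) ^ K ≤
      ∑ N ∈ (Finset.Icc 1 x).filter Representable, ((N : ℝ) / f N) ^ K +
      ∑ N ∈ (Finset.Icc 1 x).filter (fun N => ¬ Representable N), ((N : ℝ) / f N) ^ K :=
    (Finset.sum_filter_add_sum_filter_not _ _ _).ge
  have h2 : ∑ N ∈ (Finset.Icc 1 x).filter (fun N => ¬ Representable N), ((N : ℝ) / f N) ^ K ≤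
      ∑ N ∈ Finset.Icc 1 x, (1 : ℝ) := by
    refine (Finset.sum_le_sum (g := fun _ => (1 : ℝ)) fun N hN => ?_).trans
      (Finset.sum_le_sum_of_subset_of_nonneg (Finset.filter_subset _ _)
        (fun _ _ _ => zero_le_one))
    rw [f_zero (Finset.mem_filter.1 hN).2, Nat.cast_zero, div_zero]
    exact pow_le_one₀ le_rfl zero_le_one
  have h3 : ∑ N ∈ (Finset.Icc 1 x).filter Representable, ((N : ℝ) / f N) ^ K ≤ C * x :=
    hC x _ fun N hN => ⟨(Finset.mem_Icc.1 (Finset.mem_filter.1 hN).1).2, (Finset.mem_filter.1 hN).2⟩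
  simp only [Finset.sum_const, Nat.card_Icc, Nat.add_sub_cancel, nsmul_eq_mul, mul_one] at h2
  linarith

/-- the tail bound -/
theorem tail (K : ℕ) : ∃ C : ℝ, 0 ≤ C ∧ ∀ (ε : ℝ), 0 < ε → ∀ x : ℕ,
    (count {N | Representable N ∧ (f N : ℝ) ≤ ε * N} x : ℝ) ≤ C * ε ^ K * x := by
  classical
  obtain ⟨C, hC0, hC⟩ := moments_rep K
  refine ⟨C, hC0, fun ε hε x => ?_⟩
  set S : Finset ℕ := (Finset.Icc 1 x).filter (fun N => Representable N ∧ (f N : ℝ) ≤ ε * N)
    with hS
  have h1 : count {N | Representable N ∧ (f N : ℝ) ≤ ε * N} x = S.card := by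
    unfold count
    rw [← Set.ncard_coe_finset]
    congr 1
    ext N
    simp only [Set.mem_inter_iff, Set.mem_ofPred_eq, Set.mem_Icc, hS, Finset.coe_filter,
      Finset.mem_Icc]
    tauto
  have h2 := hC x S fun N hN => by
    obtain ⟨h3, h4, -⟩ := Finset.mem_filter.1 hN
    exact ⟨(Finset.mem_Icc.1 h3).2, h4⟩
  have h3 : ∑ N ∈ S, (1 / ε) ^ K ≤ ∑ N ∈ S, ((N : ℝ) / f N) ^ K := by
    refine Finset.sum_le_sum fun N hN => ?_
    obtain ⟨-, h4, h5⟩ := Finset.mem_filter.1 hN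
    have hf : (0 : ℝ) < f N := by exact_mod_cast f_pos h4
    apply pow_le_pow_left₀ (by positivity)
    rw [div_le_div_iff₀ hε hf, one_mul, mul_comm]
    exact h5
  rw [Finset.sum_const, nsmul_eq_mul] at h3
  have h4 : (S.card : ℝ) * (1 / ε) ^ K ≤ C * x := h3.trans h2
  rw [h1]
  rw [one_div, inv_pow, ← div_eq_mul_inv, div_le_iff₀ (by positivity)] at h4
  linarith

theorem count_mono {E F : Set ℕ} (x : ℕ) (h : E ⊆ F) : count E x ≤ count F x :=
  Set.ncard_le_ncard (Set.inter_subset_inter_left _ h) ((Set.finite_Icc 1 x).subset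
    Set.inter_subset_right)

theorem count_union_le (E F : Set ℕ) (x : ℕ) : count (E ∪ F) x ≤ count E x + count F x := by
  unfold count
  rw [Set.union_inter_distrib_right]
  exact Set.ncard_union_le _ _

theorem count_lt (M x : ℕ) : count {N | N < M} x ≤ M := by
  unfold count
  calc ({N | N < M} ∩ Set.Icc 1 x).ncard ≤ ((Finset.range M : Finset ℕ) : Set ℕ).ncard := by
        apply Set.ncard_le_ncard _ (Finset.finite_toSet _)
        intro N hN
        simp only [Finset.coe_range, Set.mem_Iio]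
        exact hN.1
    _ = M := by rw [Set.ncard_coe_finset, Finset.card_range]

theorem count_compl (E : Set ℕ) (x : ℕ) : count E x + count Eᶜ x = x := by
  unfold count
  have h1 : Set.Icc 1 x = (E ∩ Set.Icc 1 x) ∪ (Eᶜ ∩ Set.Icc 1 x) := by
    ext N
    simp only [Set.mem_union, Set.mem_inter_iff, Set.mem_compl_iff]
    tauto
  have h2 : (Set.Icc 1 x).ncard = x := by
    rw [← Finset.coe_Icc, Set.ncard_coe_finset, Nat.card_Icc]
    omega
  rw [← Set.ncard_union_eq _ ((Set.finite_Icc 1 x).subset Set.inter_subset_right)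
    ((Set.finite_Icc 1 x).subset Set.inter_subset_right), ← h1, h2]
  rw [Set.disjoint_left]
  rintro N ⟨h3, -⟩ ⟨h4, -⟩
  exact h4 h3

/-- a set which is eventually contained in the sets `f ≤ ε N` has density zero -/
theorem density_zero {E : Set ℕ} (h : ∀ ε : ℝ, 0 < ε → ∃ M : ℕ, ∀ N ∈ E, M ≤ N →
    Representable N ∧ (f N : ℝ) ≤ ε * N) : HasDensity E 0 := by
  obtain ⟨C, hC0, hC⟩ := tail 1
  unfold HasDensity
  rw [Metric.tendsto_atTop]
  intro η hη
  set ε : ℝ := η / (2 * (C + 1)) with hε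
  have hε0 : 0 < ε := by positivity
  obtain ⟨M, hM⟩ := h ε hε0
  obtain ⟨x₀, hx₀⟩ := exists_nat_gt (2 * (M : ℝ) / η)
  refine ⟨max x₀ 1, fun x hx => ?_⟩
  have hx1 : (1 : ℝ) ≤ x := by exact_mod_cast (le_max_right _ _).trans hx
  have hx0 : (x₀ : ℝ) ≤ x := by exact_mod_cast (le_max_left _ _).trans hx
  have h1 : count E x ≤ M + count {N | Representable N ∧ (f N : ℝ) ≤ ε * N} x := by
    refine (count_mono x (F := {N | N < M} ∪ {N | Representable N ∧ (f N : ℝ) ≤ ε * N})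
      fun N hN => ?_).trans ((count_union_le _ _ x).trans (Nat.add_le_add_right (count_lt M x) _))
    by_cases hNM : N < M
    · exact Or.inl hNM
    · exact Or.inr (hM N hN (not_lt.1 hNM))
  have h2 := hC ε hε0 x
  rw [pow_one] at h2
  have h3 : (count E x : ℝ) ≤ M + C * ε * x := by
    have h4 : (count E x : ℝ) ≤
        M + (count {N | Representable N ∧ (f N : ℝ) ≤ ε * N} x : ℝ) := by exact_mod_cast h1
    linarith
  have h5 : C * ε < η / 2 := by
    rw [hε, ← mul_div_assoc, div_lt_div_iff₀ (by positivity) (by norm_num)]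
    nlinarith
  have h6 : (M : ℝ) < η / 2 * x := by
    have h7 : 2 * (M : ℝ) / η < x := hx₀.trans_le hx0
    rw [div_lt_iff₀ hη] at h7
    linarith
  have h8 : (count E x : ℝ) < η * x := by nlinarith
  rw [Real.dist_eq, sub_zero, abs_of_nonneg (by positivity), div_lt_iff₀ (by linarith)]
  exact h8

theorem density_compl {E : Set ℕ} (h : HasDensity Eᶜ 0) : HasDensity E 1 := by
  unfold HasDensity at h ⊢
  have h1 : Tendsto (fun x : ℕ => 1 - (count Eᶜ x : ℝ) / x) atTop (𝓝 (1 - 0)) :=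
    tendsto_const_nhds.sub h
  rw [sub_zero] at h1
  refine h1.congr' ?_
  filter_upwards [eventually_ge_atTop 1] with x hx
  have hx0 : (0 : ℝ) < x := by exact_mod_cast hx
  have h2 : (count E x : ℝ) + count Eᶜ x = x := by exact_mod_cast count_compl E x
  field_simp
  linarith

/-- **Initial divisor sums: the answer to Q1 is negative, in the strongest possible form.**

1. Every large `N` is representable.
2. All moments of `N / f (N)` are bounded: `∑_{N ≤ x} (N / f (N)) ^ K ≤ C_K x`.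
3. `#{N ≤ x : f (N) ≤ ε N} ≤ C_K ε ^ K x` for every `K`, all `ε > 0` and all `x`.
4. `f (N) ^ K ≥ N ^ (K - 1) / C_K` for every representable `N`, i.e. `f (N) ≥ c_δ N ^ (1 - δ)`.
5. For every function `ψ` tending to zero (however slowly), `N` is representable with
`f (N) > ψ (N) N` for almost all `N`.
6. If `f (N) ≤ ε N` for every `ε > 0` and all large representable `N` outside a set `E`, then `E`
has density one (Q1 asks for such an `E` of density zero).
7. The answer to Q1 is negative. -/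
theorem result :
    (∃ N₀ : ℕ, ∀ N ≥ N₀, Representable N) ∧
    (∀ K : ℕ, ∃ C : ℝ, ∀ x : ℕ, ∑ N ∈ Finset.Icc 1 x, ((N : ℝ) / f N) ^ K ≤ C * x) ∧
    (∀ K : ℕ, ∃ C : ℝ, ∀ ε : ℝ, 0 < ε → ∀ x : ℕ,
      (count {N | Representable N ∧ (f N : ℝ) ≤ ε * N} x : ℝ) ≤ C * ε ^ K * x) ∧
    (∀ K : ℕ, ∃ C : ℝ, ∀ N : ℕ, Representable N → (N : ℝ) ^ K ≤ C * N * (f N : ℝ) ^ K) ∧
    (∀ ψ : ℕ → ℝ, Tendsto ψ atTop (𝓝 0) →
      HasDensity {N | Representable N ∧ ψ N * N < f N} 1) ∧
    (∀ E : Set ℕ, (∀ ε : ℝ, 0 < ε → ∃ N₀ : ℕ, ∀ N : ℕ, N₀ ≤ N → N ∉ E → Representable N →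
      (f N : ℝ) ≤ ε * N) → HasDensity E 1) ∧
    ¬ ∃ E : Set ℕ, HasDensity E 0 ∧ ∀ ε : ℝ, 0 < ε → ∃ N₀ : ℕ, ∀ N : ℕ, N₀ ≤ N → N ∉ E →
      Representable N ∧ (f N : ℝ) ≤ ε * N := by
  classical
  obtain ⟨M₀, hM₀⟩ := large_representable
  have h6 : ∀ E : Set ℕ, (∀ ε : ℝ, 0 < ε → ∃ N₀ : ℕ, ∀ N : ℕ, N₀ ≤ N → N ∉ E →
      Representable N → (f N : ℝ) ≤ ε * N) → HasDensity E 1 := by
    intro E hE
    apply density_compl
    apply density_zero
    intro ε hε
    obtain ⟨N₀, hN₀⟩ := hE ε hε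
    refine ⟨max N₀ M₀, fun N hN hNM => ?_⟩
    have hr := hM₀ N ((le_max_right _ _).trans hNM)
    exact ⟨hr, hN₀ N ((le_max_left _ _).trans hNM) hN hr⟩
  refine ⟨⟨M₀, hM₀⟩, fun K => ?_, fun K => ?_, fun K => ?_, fun ψ hψ => ?_, h6, ?_⟩
  · obtain ⟨C, -, hC⟩ := moments K
    exact ⟨C, hC⟩
  · obtain ⟨C, -, hC⟩ := tail K
    exact ⟨C, hC⟩
  · obtain ⟨C, -, hC⟩ := moments_rep K
    refine ⟨C, fun N hN => ?_⟩
    have h1 := hC N {N} (fun M hM => by
      rw [Finset.mem_singleton] at hM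
      subst hM
      exact ⟨le_rfl, hN⟩)
    rw [Finset.sum_singleton, div_pow, div_le_iff₀ (pow_pos (by exact_mod_cast f_pos hN) K)] at h1
    exact h1
  · apply density_compl
    apply density_zero
    intro ε hε
    have h1 : ∀ᶠ N : ℕ in atTop, ψ N < ε := hψ.eventually (gt_mem_nhds hε)
    obtain ⟨N₁, hN₁⟩ := Filter.eventually_atTop.1 h1
    refine ⟨max N₁ M₀, fun N hN hNM => ?_⟩
    have hr := hM₀ N ((le_max_right _ _).trans hNM)
    refine ⟨hr, ?_⟩
    have h2 : ¬ (ψ N * N < f N) := fun h => hN ⟨hr, h⟩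
    have h3 := hN₁ N ((le_max_left _ _).trans hNM)
    have h4 : ψ N * N ≤ ε * N := mul_le_mul_of_nonneg_right h3.le (Nat.cast_nonneg _)
    linarith
  · rintro ⟨E, hE, h⟩
    have h1 := h6 E fun ε hε => by
      obtain ⟨N₀, hN₀⟩ := h ε hε
      exact ⟨N₀, fun N hN hNE _ => (hN₀ N hN hNE).2⟩
    have h2 := tendsto_nhds_unique hE h1
    norm_num at h2

end Pool.Agent.Results.MP_d49c4f_nt.BoundedMoments
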